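import Pool.Agent.Q120.SkewLaurent

namespace Pool.Agent.Results.MP_d4f5ca_al.Semidistributive

open Pool.Agent.Q120 Pool.Agent.Q120.SkewLaurent MulOpposite

/-- A module is distributive if its lattice of submodules is distributive. -/
def DistributiveModule (R M : Type*) [Ring R] [AddCommGroup M] [Module R M] : Prop :=
  ∀ F G H : Submodule R M, F ⊓ (G ⊔ H) = (F ⊓ G) ⊔ (F ⊓ H)

/-- A ring `R` is right semidistributive if the right regular module is the (internal) direct sum
of a family of distributive right submodules. -/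
def RightSemidistributive (R : Type*) [Ring R] : Prop :=
  ∃ (ι : Type) (N : ι → Submodule Rᵐᵒᵖ R), iSupIndep N ∧ ⨆ i, N i = ⊤ ∧
    ∀ i, DistributiveModule Rᵐᵒᵖ (N i)

/-- The six-dimensional algebra over the field with two elements, with basis
`e₁, e₂, a₁₁, a₁₂, a₂₁, a₂₂`. -/
@[ext] structure A where
  p : ZMod 2
  q : ZMod 2
  a : ZMod 2
  b : ZMod 2
  c : ZMod 2
  d : ZMod 2
deriving DecidableEq

namespace A

instance : Zero A := ⟨⟨0, 0, 0, 0, 0, 0⟩⟩
instance : One A := ⟨⟨1, 1, 0, 0, 0, 0⟩⟩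
instance : Add A := ⟨fun x y => ⟨x.p + y.p, x.q + y.q, x.a + y.a, x.b + y.b, x.c + y.c, x.d + y.d⟩⟩
instance : Neg A := ⟨fun x => ⟨-x.p, -x.q, -x.a, -x.b, -x.c, -x.d⟩⟩
instance : Mul A := ⟨fun x y => ⟨x.p * y.p, x.q * y.q, x.p * y.a + x.a * y.p,
  x.p * y.b + x.b * y.q, x.q * y.c + x.c * y.p, x.q * y.d + x.d * y.q⟩⟩

@[simp] lemma zero_p : (0 : A).p = 0 := rfl
@[simp] lemma zero_q : (0 : A).q = 0 := rfl
@[simp] lemma zero_a : (0 : A).a = 0 := rfl
@[simp] lemma zero_b : (0 : A).b = 0 := rfl
@[simp] lemma zero_c : (0 : A).c = 0 := rfl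
@[simp] lemma zero_d : (0 : A).d = 0 := rfl
@[simp] lemma one_p : (1 : A).p = 1 := rfl
@[simp] lemma one_q : (1 : A).q = 1 := rfl
@[simp] lemma one_a : (1 : A).a = 0 := rfl
@[simp] lemma one_b : (1 : A).b = 0 := rfl
@[simp] lemma one_c : (1 : A).c = 0 := rfl
@[simp] lemma one_d : (1 : A).d = 0 := rfl
@[simp] lemma add_p (x y : A) : (x + y).p = x.p + y.p := rfl
@[simp] lemma add_q (x y : A) : (x + y).q = x.q + y.q := rfl
@[simp] lemma add_a (x y : A) : (x + y).a = x.a + y.a := rfl
@[simp] lemma add_b (x y : A) : (x + y).b = x.b + y.b := rfl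
@[simp] lemma add_c (x y : A) : (x + y).c = x.c + y.c := rfl
@[simp] lemma add_d (x y : A) : (x + y).d = x.d + y.d := rfl
@[simp] lemma neg_p (x : A) : (-x).p = -x.p := rfl
@[simp] lemma neg_q (x : A) : (-x).q = -x.q := rfl
@[simp] lemma neg_a (x : A) : (-x).a = -x.a := rfl
@[simp] lemma neg_b (x : A) : (-x).b = -x.b := rfl
@[simp] lemma neg_c (x : A) : (-x).c = -x.c := rfl
@[simp] lemma neg_d (x : A) : (-x).d = -x.d := rfl
@[simp] lemma mul_p (x y : A) : (x * y).p = x.p * y.p := rfl
@[simp] lemma mul_q (x y : A) : (x * y).q = x.q * y.q := rfl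
@[simp] lemma mul_a (x y : A) : (x * y).a = x.p * y.a + x.a * y.p := rfl
@[simp] lemma mul_b (x y : A) : (x * y).b = x.p * y.b + x.b * y.q := rfl
@[simp] lemma mul_c (x y : A) : (x * y).c = x.q * y.c + x.c * y.p := rfl
@[simp] lemma mul_d (x y : A) : (x * y).d = x.q * y.d + x.d * y.q := rfl

instance : Ring A where
  add_assoc x y z := by ext <;> simp <;> ring
  zero_add x := by ext <;> simp
  add_zero x := by ext <;> simp
  add_comm x y := by ext <;> simp <;> ring
  neg_add_cancel x := by ext <;> exact neg_add_cancel _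
  nsmul := nsmulRec
  zsmul := zsmulRec
  mul_assoc x y z := by ext <;> simp <;> ring
  one_mul x := by ext <;> simp
  mul_one x := by ext <;> simp
  zero_mul x := by ext <;> simp
  mul_zero x := by ext <;> simp
  left_distrib x y z := by ext <;> simp <;> ring
  right_distrib x y z := by ext <;> simp <;> ring

/-- The elements of `A` as tuples. -/
def equiv : A ≃ ZMod 2 × ZMod 2 × ZMod 2 × ZMod 2 × ZMod 2 × ZMod 2 where
  toFun x := (x.p, x.q, x.a, x.b, x.c, x.d)
  invFun x := ⟨x.1, x.2.1, x.2.2.1, x.2.2.2.1, x.2.2.2.2.1, x.2.2.2.2.2⟩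
  left_inv _ := rfl
  right_inv _ := rfl

instance : Finite A := Finite.of_equiv _ equiv.symm

end A

/-- The automorphism exchanging the two indices. -/
def φ : RingAut A where
  toFun x := ⟨x.q, x.p, x.d, x.c, x.b, x.a⟩
  invFun x := ⟨x.q, x.p, x.d, x.c, x.b, x.a⟩
  left_inv _ := rfl
  right_inv _ := rfl
  map_mul' x y := by ext <;> simp
  map_add' x y := by ext <;> simp

lemma φ_sq : φ ^ (2 : ℤ) = 1 := by
  ext x <;> rfl

lemma φ_even (i : ℤ) (h : Even i) (x : A) : (φ ^ i) x = x := by
  obtain ⟨j, rfl⟩ := h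
  rw [← two_mul, zpow_mul, φ_sq, one_zpow]
  rfl

lemma φ_odd (i : ℤ) (h : ¬ Even i) (x : A) : (φ ^ i) x = ⟨x.q, x.p, x.d, x.c, x.b, x.a⟩ := by
  rw [Int.not_even_iff_odd] at h
  obtain ⟨j, rfl⟩ := h
  rw [zpow_add, zpow_mul, φ_sq, one_zpow, one_mul, zpow_one]
  rfl

/-! ### `A` is right semidistributive -/

/-- Right ideals as submodules: closure under right multiplication. -/
lemma mul_mem {R : Type*} [Ring R] (N : Submodule Rᵐᵒᵖ R) {x : R} (hx : x ∈ N) (r : R) :
    x * r ∈ N := N.smul_mem (op r) hx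

/-- the idempotent `e₁` -/
def e1 : A := ⟨1, 0, 0, 0, 0, 0⟩
/-- the idempotent `e₂` -/
def e2 : A := ⟨0, 1, 0, 0, 0, 0⟩

/-- The right ideal `e A` of elements fixed by left multiplication by `e`. -/
def fixedBy (e : A) : Submodule Aᵐᵒᵖ A where
  carrier := {x | e * x = x}
  add_mem' := by
    intro x y hx hy
    change e * (x + y) = x + y
    rw [mul_add, hx, hy]
  zero_mem' := mul_zero e
  smul_mem' := by
    intro r x hx
    change e * (x * r.unop) = x * r.unop
    rw [← mul_assoc, hx]

lemma mem_e1 (x : A) : x ∈ fixedBy e1 ↔ x.q = 0 ∧ x.c = 0 ∧ x.d = 0 := by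
  change e1 * x = x ↔ _
  rw [A.ext_iff]
  simp [e1]
  tauto

lemma mem_e2 (x : A) : x ∈ fixedBy e2 ↔ x.p = 0 ∧ x.a = 0 ∧ x.b = 0 := by
  change e2 * x = x ↔ _
  rw [A.ext_iff]
  simp [e2]
  tauto

lemma z2 (x : ZMod 2) (h : x ≠ 0) : x = 1 := by
  revert x; decide

/-- Distributivity criterion for `e₁ A`. -/
lemma dist1 : DistributiveModule Aᵐᵒᵖ (fixedBy e1) := by
  intro F G H
  -- components of elements of a submodule
  have comp : ∀ (F : Submodule Aᵐᵒᵖ (fixedBy e1)) (z : fixedBy e1), z ∈ F → z.1.p = 0 →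
      (∀ w : fixedBy e1, w.1 = ⟨0, 0, z.1.a, 0, 0, 0⟩ → w ∈ F) ∧
      (∀ w : fixedBy e1, w.1 = ⟨0, 0, 0, z.1.b, 0, 0⟩ → w ∈ F) := by
    intro F z hz hp
    have hz1 := (mem_e1 z.1).mp z.2
    constructor
    · intro w hw
      have : w = op e1 • z := by
        apply Subtype.ext
        rw [hw]
        change _ = z.1 * e1
        ext <;> simp [e1, hp, hz1]
      rw [this]
      exact F.smul_mem _ hz
    · intro w hw
      have : w = op e2 • z := by
        apply Subtype.ext
        rw [hw]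
        change _ = z.1 * e2
        ext <;> simp [e2, hp, hz1]
      rw [this]
      exact F.smul_mem _ hz
  -- a submodule containing an element outside the radical is everything
  have top : ∀ (F : Submodule Aᵐᵒᵖ (fixedBy e1)) (z : fixedBy e1), z ∈ F → z.1.p ≠ 0 → F = ⊤ := by
    intro F z hz hp
    have hp' := z2 _ hp
    have hz1 := (mem_e1 z.1).mp z.2
    rw [eq_top_iff]
    intro w _
    have hw1 := (mem_e1 w.1).mp w.2
    have : w = op (⟨w.1.p, 0, w.1.a - z.1.a * w.1.p, w.1.b, 0, 0⟩ : A) • z := by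
      apply Subtype.ext
      change _ = z.1 * _
      ext <;> simp [hp', hz1, hw1]
    rw [this]
    exact F.smul_mem _ hz
  apply le_antisymm
  · intro z hz
    obtain ⟨hzF, hzGH⟩ := hz
    obtain ⟨y, hy, w, hw, rfl⟩ := Submodule.mem_sup.mp hzGH
    by_cases hyp : y.1.p = 0
    swap
    · rw [top G y hy hyp]
      exact Submodule.mem_sup_left ⟨hzF, Submodule.mem_top⟩
    by_cases hwp : w.1.p = 0
    swap
    · rw [top H w hw hwp]
      exact Submodule.mem_sup_right ⟨hzF, Submodule.mem_top⟩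
    have hzp : (y + w).1.p = 0 := by
      change y.1.p + w.1.p = 0
      rw [hyp, hwp, add_zero]
    obtain ⟨z1, z2'⟩ := comp F _ hzF hzp
    obtain ⟨y1, y2⟩ := comp G _ hy hyp
    obtain ⟨w1, w2⟩ := comp H _ hw hwp
    have hya := (mem_e1 y.1).mp y.2
    have hwa := (mem_e1 w.1).mp w.2
    -- the two homogeneous components of `y + w`
    have ha : (⟨⟨0, 0, (y + w).1.a, 0, 0, 0⟩, (mem_e1 _).mpr ⟨rfl, rfl, rfl⟩⟩ : fixedBy e1) ∈
        (F ⊓ G) ⊔ (F ⊓ H) := by
      by_cases h1 : y.1.a = 0
      · by_cases h2 : w.1.a = 0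
        · have : (⟨⟨0, 0, (y + w).1.a, 0, 0, 0⟩, (mem_e1 _).mpr ⟨rfl, rfl, rfl⟩⟩ : fixedBy e1) =
              0 := by
            apply Subtype.ext
            have : (y + w).1.a = 0 := by
              change y.1.a + w.1.a = 0
              rw [h1, h2, add_zero]
            simp only [this]
            rfl
          rw [this]
          exact zero_mem _
        · apply Submodule.mem_sup_right
          refine ⟨z1 _ rfl, w1 _ ?_⟩
          have : (y + w).1.a = w.1.a := by
            change y.1.a + w.1.a = _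
            rw [h1, zero_add]
          simp only [this]
      · by_cases h2 : w.1.a = 0
        · apply Submodule.mem_sup_left
          refine ⟨z1 _ rfl, y1 _ ?_⟩
          have : (y + w).1.a = y.1.a := by
            change y.1.a + w.1.a = _
            rw [h2, add_zero]
          simp only [this]
        · have : (⟨⟨0, 0, (y + w).1.a, 0, 0, 0⟩, (mem_e1 _).mpr ⟨rfl, rfl, rfl⟩⟩ : fixedBy e1) =
              0 := by
            apply Subtype.ext
            have : (y + w).1.a = 0 := by
              change y.1.a + w.1.a = 0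
              rw [z2 _ h1, z2 _ h2]
              rfl
            simp only [this]
            rfl
          rw [this]
          exact zero_mem _
    have hb : (⟨⟨0, 0, 0, (y + w).1.b, 0, 0⟩, (mem_e1 _).mpr ⟨rfl, rfl, rfl⟩⟩ : fixedBy e1) ∈
        (F ⊓ G) ⊔ (F ⊓ H) := by
      by_cases h1 : y.1.b = 0
      · by_cases h2 : w.1.b = 0
        · have : (⟨⟨0, 0, 0, (y + w).1.b, 0, 0⟩, (mem_e1 _).mpr ⟨rfl, rfl, rfl⟩⟩ : fixedBy e1) =
              0 := by
            apply Subtype.ext
            have : (y + w).1.b = 0 := by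
              change y.1.b + w.1.b = 0
              rw [h1, h2, add_zero]
            simp only [this]
            rfl
          rw [this]
          exact zero_mem _
        · apply Submodule.mem_sup_right
          refine ⟨z2' _ rfl, w2 _ ?_⟩
          have : (y + w).1.b = w.1.b := by
            change y.1.b + w.1.b = _
            rw [h1, zero_add]
          simp only [this]
      · by_cases h2 : w.1.b = 0
        · apply Submodule.mem_sup_left
          refine ⟨z2' _ rfl, y2 _ ?_⟩
          have : (y + w).1.b = y.1.b := by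
            change y.1.b + w.1.b = _
            rw [h2, add_zero]
          simp only [this]
        · have : (⟨⟨0, 0, 0, (y + w).1.b, 0, 0⟩, (mem_e1 _).mpr ⟨rfl, rfl, rfl⟩⟩ : fixedBy e1) =
              0 := by
            apply Subtype.ext
            have : (y + w).1.b = 0 := by
              change y.1.b + w.1.b = 0
              rw [z2 _ h1, z2 _ h2]
              rfl
            simp only [this]
            rfl
          rw [this]
          exact zero_mem _
    have hsum : (y + w) = (⟨⟨0, 0, (y + w).1.a, 0, 0, 0⟩, (mem_e1 _).mpr ⟨rfl, rfl, rfl⟩⟩ :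
        fixedBy e1) + ⟨⟨0, 0, 0, (y + w).1.b, 0, 0⟩, (mem_e1 _).mpr ⟨rfl, rfl, rfl⟩⟩ := by
      apply Subtype.ext
      have hya' := (mem_e1 (y + w).1).mp (y + w).2
      change (y + w).1 = (⟨0, 0, (y + w).1.a, 0, 0, 0⟩ : A) + ⟨0, 0, 0, (y + w).1.b, 0, 0⟩
      ext
      · simp [hyp, hwp]
      · simp [hya, hwa]
      · simp
      · simp
      · simp [hya, hwa]
      · simp [hya, hwa]
    rw [hsum]
    exact add_mem ha hb
  · exact sup_le (inf_le_inf_left _ le_sup_left) (inf_le_inf_left _ le_sup_right)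

/-- Distributivity criterion for `e₂ A`. -/
lemma dist2 : DistributiveModule Aᵐᵒᵖ (fixedBy e2) := by
  intro F G H
  -- components of elements of a submodule
  have comp : ∀ (F : Submodule Aᵐᵒᵖ (fixedBy e2)) (z : fixedBy e2), z ∈ F → z.1.q = 0 →
      (∀ w : fixedBy e2, w.1 = ⟨0, 0, 0, 0, 0, z.1.d⟩ → w ∈ F) ∧
      (∀ w : fixedBy e2, w.1 = ⟨0, 0, 0, 0, z.1.c, 0⟩ → w ∈ F) := by
    intro F z hz hp
    have hz1 := (mem_e2 z.1).mp z.2
    constructor
    · intro w hw
      have : w = op e2 • z := by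
        apply Subtype.ext
        rw [hw]
        change _ = z.1 * e2
        ext <;> simp [e2, hp, hz1]
      rw [this]
      exact F.smul_mem _ hz
    · intro w hw
      have : w = op e1 • z := by
        apply Subtype.ext
        rw [hw]
        change _ = z.1 * e1
        ext <;> simp [e1, hp, hz1]
      rw [this]
      exact F.smul_mem _ hz
  -- a submodule containing an element outside the radical is everything
  have top : ∀ (F : Submodule Aᵐᵒᵖ (fixedBy e2)) (z : fixedBy e2), z ∈ F → z.1.q ≠ 0 → F = ⊤ := by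
    intro F z hz hp
    have hp' := z2 _ hp
    have hz1 := (mem_e2 z.1).mp z.2
    rw [eq_top_iff]
    intro w _
    have hw1 := (mem_e2 w.1).mp w.2
    have : w = op (⟨0, w.1.q, 0, 0, w.1.c, w.1.d - z.1.d * w.1.q⟩ : A) • z := by
      apply Subtype.ext
      change _ = z.1 * _
      ext <;> simp [hp', hz1, hw1]
    rw [this]
    exact F.smul_mem _ hz
  apply le_antisymm
  · intro z hz
    obtain ⟨hzF, hzGH⟩ := hz
    obtain ⟨y, hy, w, hw, rfl⟩ := Submodule.mem_sup.mp hzGH
    by_cases hyp : y.1.q = 0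
    swap
    · rw [top G y hy hyp]
      exact Submodule.mem_sup_left ⟨hzF, Submodule.mem_top⟩
    by_cases hwp : w.1.q = 0
    swap
    · rw [top H w hw hwp]
      exact Submodule.mem_sup_right ⟨hzF, Submodule.mem_top⟩
    have hzp : (y + w).1.q = 0 := by
      change y.1.q + w.1.q = 0
      rw [hyp, hwp, add_zero]
    obtain ⟨z1, z2'⟩ := comp F _ hzF hzp
    obtain ⟨y1, y2⟩ := comp G _ hy hyp
    obtain ⟨w1, w2⟩ := comp H _ hw hwp
    have hya := (mem_e2 y.1).mp y.2
    have hwa := (mem_e2 w.1).mp w.2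
    -- the two homogeneous components of `y + w`
    have ha : (⟨⟨0, 0, 0, 0, 0, (y + w).1.d⟩, (mem_e2 _).mpr ⟨rfl, rfl, rfl⟩⟩ : fixedBy e2) ∈
        (F ⊓ G) ⊔ (F ⊓ H) := by
      by_cases h1 : y.1.d = 0
      · by_cases h2 : w.1.d = 0
        · have : (⟨⟨0, 0, 0, 0, 0, (y + w).1.d⟩, (mem_e2 _).mpr ⟨rfl, rfl, rfl⟩⟩ : fixedBy e2) =
              0 := by
            apply Subtype.ext
            have : (y + w).1.d = 0 := by
              change y.1.d + w.1.d = 0
              rw [h1, h2, add_zero]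
            simp only [this]
            rfl
          rw [this]
          exact zero_mem _
        · apply Submodule.mem_sup_right
          refine ⟨z1 _ rfl, w1 _ ?_⟩
          have : (y + w).1.d = w.1.d := by
            change y.1.d + w.1.d = _
            rw [h1, zero_add]
          simp only [this]
      · by_cases h2 : w.1.d = 0
        · apply Submodule.mem_sup_left
          refine ⟨z1 _ rfl, y1 _ ?_⟩
          have : (y + w).1.d = y.1.d := by
            change y.1.d + w.1.d = _
            rw [h2, add_zero]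
          simp only [this]
        · have : (⟨⟨0, 0, 0, 0, 0, (y + w).1.d⟩, (mem_e2 _).mpr ⟨rfl, rfl, rfl⟩⟩ : fixedBy e2) =
              0 := by
            apply Subtype.ext
            have : (y + w).1.d = 0 := by
              change y.1.d + w.1.d = 0
              rw [z2 _ h1, z2 _ h2]
              rfl
            simp only [this]
            rfl
          rw [this]
          exact zero_mem _
    have hb : (⟨⟨0, 0, 0, 0, (y + w).1.c, 0⟩, (mem_e2 _).mpr ⟨rfl, rfl, rfl⟩⟩ : fixedBy e2) ∈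
        (F ⊓ G) ⊔ (F ⊓ H) := by
      by_cases h1 : y.1.c = 0
      · by_cases h2 : w.1.c = 0
        · have : (⟨⟨0, 0, 0, 0, (y + w).1.c, 0⟩, (mem_e2 _).mpr ⟨rfl, rfl, rfl⟩⟩ : fixedBy e2) =
              0 := by
            apply Subtype.ext
            have : (y + w).1.c = 0 := by
              change y.1.c + w.1.c = 0
              rw [h1, h2, add_zero]
            simp only [this]
            rfl
          rw [this]
          exact zero_mem _
        · apply Submodule.mem_sup_right
          refine ⟨z2' _ rfl, w2 _ ?_⟩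
          have : (y + w).1.c = w.1.c := by
            change y.1.c + w.1.c = _
            rw [h1, zero_add]
          simp only [this]
      · by_cases h2 : w.1.c = 0
        · apply Submodule.mem_sup_left
          refine ⟨z2' _ rfl, y2 _ ?_⟩
          have : (y + w).1.c = y.1.c := by
            change y.1.c + w.1.c = _
            rw [h2, add_zero]
          simp only [this]
        · have : (⟨⟨0, 0, 0, 0, (y + w).1.c, 0⟩, (mem_e2 _).mpr ⟨rfl, rfl, rfl⟩⟩ : fixedBy e2) =
              0 := by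
            apply Subtype.ext
            have : (y + w).1.c = 0 := by
              change y.1.c + w.1.c = 0
              rw [z2 _ h1, z2 _ h2]
              rfl
            simp only [this]
            rfl
          rw [this]
          exact zero_mem _
    have hsum : (y + w) = (⟨⟨0, 0, 0, 0, 0, (y + w).1.d⟩, (mem_e2 _).mpr ⟨rfl, rfl, rfl⟩⟩ :
        fixedBy e2) + ⟨⟨0, 0, 0, 0, (y + w).1.c, 0⟩, (mem_e2 _).mpr ⟨rfl, rfl, rfl⟩⟩ := by
      apply Subtype.ext
      have hya' := (mem_e2 (y + w).1).mp (y + w).2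
      change (y + w).1 = (⟨0, 0, 0, 0, 0, (y + w).1.d⟩ : A) + ⟨0, 0, 0, 0, (y + w).1.c, 0⟩
      ext
      · simp [hya, hwa]
      · simp [hyp, hwp]
      · simp [hya, hwa]
      · simp [hya, hwa]
      · simp
      · simp
    rw [hsum]
    exact add_mem ha hb
  · exact sup_le (inf_le_inf_left _ le_sup_left) (inf_le_inf_left _ le_sup_right)

/-- `A` is right semidistributive. -/
theorem semidistributive_A : RightSemidistributive A := by
  refine ⟨Fin 2, ![fixedBy e1, fixedBy e2], ?_, ?_, ?_⟩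
  · rw [iSupIndep_def]
    intro i
    rw [Submodule.disjoint_def]
    intro x hx hx'
    fin_cases i
    · have h1 : x ∈ fixedBy e2 := by
        refine (iSup₂_le ?_ : (⨆ j, ⨆ (_ : j ≠ (0 : Fin 2)),
          (![fixedBy e1, fixedBy e2] : Fin 2 → Submodule Aᵐᵒᵖ A) j) ≤ fixedBy e2) hx'
        intro j hj
        fin_cases j
        · exact absurd rfl hj
        · exact le_rfl
      have h2 := (mem_e1 x).mp hx
      have h3 := (mem_e2 x).mp h1
      ext <;> simp [h2, h3]
    · have h1 : x ∈ fixedBy e1 := by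
        refine (iSup₂_le ?_ : (⨆ j, ⨆ (_ : j ≠ (1 : Fin 2)),
          (![fixedBy e1, fixedBy e2] : Fin 2 → Submodule Aᵐᵒᵖ A) j) ≤ fixedBy e1) hx'
        intro j hj
        fin_cases j
        · exact le_rfl
        · exact absurd rfl hj
      have h2 := (mem_e2 x).mp hx
      have h3 := (mem_e1 x).mp h1
      ext <;> simp [h2, h3]
  · rw [eq_top_iff]
    intro x _
    have h : x = e1 * x + e2 * x := by
      ext <;> simp [e1, e2]
    rw [h]
    apply add_mem
    · refine (le_iSup (![fixedBy e1, fixedBy e2] : Fin 2 → Submodule Aᵐᵒᵖ A) 0) ?_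
      change e1 * (e1 * x) = e1 * x
      rw [← mul_assoc]
      rfl
    · refine (le_iSup (![fixedBy e1, fixedBy e2] : Fin 2 → Submodule Aᵐᵒᵖ A) 1) ?_
      change e2 * (e2 * x) = e2 * x
      rw [← mul_assoc]
      rfl
  · intro i
    fin_cases i
    · exact dist1
    · exact dist2

/-! ### The skew Laurent series ring -/

abbrev R : Type := SkewLaurent φ

def pp : A →+ ZMod 2 := ⟨⟨A.p, rfl⟩, fun _ _ => rfl⟩
def pq : A →+ ZMod 2 := ⟨⟨A.q, rfl⟩, fun _ _ => rfl⟩
def pa : A →+ ZMod 2 := ⟨⟨A.a, rfl⟩, fun _ _ => rfl⟩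
def pb : A →+ ZMod 2 := ⟨⟨A.b, rfl⟩, fun _ _ => rfl⟩
def pc : A →+ ZMod 2 := ⟨⟨A.c, rfl⟩, fun _ _ => rfl⟩
def pd : A →+ ZMod 2 := ⟨⟨A.d, rfl⟩, fun _ _ => rfl⟩

lemma sum_comp {ι : Type*} (s : Finset ι) (f : ι → A) : ∑ i ∈ s, f i =
    ⟨∑ i ∈ s, (f i).p, ∑ i ∈ s, (f i).q, ∑ i ∈ s, (f i).a, ∑ i ∈ s, (f i).b,
      ∑ i ∈ s, (f i).c, ∑ i ∈ s, (f i).d⟩ := by
  ext
  · exact map_sum pp f s
  · exact map_sum pq f s
  · exact map_sum pa f s
  · exact map_sum pb f s
  · exact map_sum pc f s
  · exact map_sum pd f s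

/-- A right ideal of `R` containing an element `r` with `r a₁₁ ≠ 0` is not distributive. -/
lemma not_dist (N : Submodule Rᵐᵒᵖ R) (r : R) (hr : r ∈ N)
    (hra : r * monomial φ 0 (⟨0, 0, 1, 0, 0, 0⟩ : A) ≠ 0) : ¬ DistributiveModule Rᵐᵒᵖ N := by
  intro hdist
  obtain ⟨u, hu⟩ : ∃ u : R, u = r * monomial φ 0 (⟨0, 0, 1, 0, 0, 0⟩ : A) := ⟨_, rfl⟩
  obtain ⟨v, hv⟩ : ∃ v : R, v = r * monomial φ 1 (⟨0, 0, 0, 1, 0, 0⟩ : A) := ⟨_, rfl⟩
  have huN : u ∈ N := by rw [hu]; exact mul_mem N hr _
  have hvN : v ∈ N := by rw [hv]; exact mul_mem N hr _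
  have hui : ∀ i, u.coeff i = ⟨0, 0, if Even i then (r.coeff i).p else 0, 0, 0,
      if Even i then 0 else (r.coeff i).q⟩ := by
    intro i
    rw [hu, coeff_mul_monomial, sub_zero]
    by_cases h : Even i
    · rw [φ_even i h]
      ext <;> simp [h]
    · rw [φ_odd i h]
      ext <;> simp [h]
  have hvi : ∀ i, v.coeff (i + 1) = ⟨0, 0, 0, if Even i then (r.coeff i).p else 0,
      if Even i then 0 else (r.coeff i).q, 0⟩ := by
    intro i
    rw [hv, coeff_mul_monomial, add_sub_cancel_right]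
    by_cases h : Even i
    · rw [φ_even i h]
      ext <;> simp [h]
    · rw [φ_odd i h]
      ext <;> simp [h]
  obtain ⟨m, hm⟩ := r.bdd
  have hum : ∀ i < m, u.coeff i = 0 := by
    intro i hi
    rw [hui, hm i hi]
    ext <;> simp
  have hvm : ∀ i < m + 1, v.coeff i = 0 := by
    intro i hi
    rw [show i = (i - 1) + 1 by ring, hvi, hm (i - 1) (by omega)]
    ext <;> simp
  -- products
  have hus : ∀ (s : R) (n : ℤ) (hn : ∀ i < n, s.coeff i = 0) (k : ℤ), (u * s).coeff k =
      ∑ i ∈ Finset.Icc m (k - n), (⟨0, 0, (if Even i then (r.coeff i).p else 0) *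
        (s.coeff (k - i)).p, 0, 0, (if Even i then 0 else (r.coeff i).q) *
        (s.coeff (k - i)).p⟩ : A) := by
    intro s n hn k
    rw [coeff_mul_eq_sum hum hn]
    refine Finset.sum_congr rfl fun i _ => ?_
    rw [hui]
    by_cases h : Even i
    · rw [φ_even i h]
      ext <;> simp [h]
    · rw [φ_odd i h]
      ext <;> simp [h]
  have hvs : ∀ (s : R) (n : ℤ) (hn : ∀ i < n, s.coeff i = 0) (k : ℤ), (v * s).coeff (k + 1) =
      ∑ i ∈ Finset.Icc m (k - n), (⟨0, 0, 0, (if Even i then (r.coeff i).p else 0) *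
        (s.coeff (k - i)).p, (if Even i then 0 else (r.coeff i).q) *
        (s.coeff (k - i)).p, 0⟩ : A) := by
    intro s n hn k
    rw [coeff_mul_eq_sum hvm hn]
    symm
    refine Finset.sum_bij (fun i _ => i + 1) ?_ ?_ ?_ ?_
    · intro i hi
      rw [Finset.mem_Icc] at hi ⊢
      omega
    · intro i _ j _ h
      exact add_right_cancel h
    · intro i hi
      rw [Finset.mem_Icc] at hi
      exact ⟨i - 1, by rw [Finset.mem_Icc]; omega, by ring⟩
    · intro i _
      rw [hvi, show k + 1 - (i + 1) = k - i by ring]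
      by_cases h : Even i
      · rw [φ_odd (i + 1) (by rw [Int.even_add_one]; exact fun h' => h' h)]
        ext <;> simp [h]
      · rw [φ_even (i + 1) (by rw [Int.even_add_one]; exact h)]
        ext <;> simp [h]
  have key : ∀ (s : R), ∃ α β : ℤ → ZMod 2, ∀ k, (u * s).coeff k = ⟨0, 0, α k, 0, 0, β k⟩ ∧
      (v * s).coeff (k + 1) = ⟨0, 0, 0, α k, β k, 0⟩ := by
    intro s
    obtain ⟨n, hn⟩ := s.bdd
    refine ⟨fun k => ∑ i ∈ Finset.Icc m (k - n), (if Even i then (r.coeff i).p else 0) *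
        (s.coeff (k - i)).p, fun k => ∑ i ∈ Finset.Icc m (k - n),
        (if Even i then 0 else (r.coeff i).q) * (s.coeff (k - i)).p, fun k => ⟨?_, ?_⟩⟩
    · rw [hus s n hn, sum_comp]
      simp only [Finset.sum_const_zero]
    · rw [hvs s n hn, sum_comp]
      simp only [Finset.sum_const_zero]
  have hzero : ∀ (s : R), (∀ k, ((u * s).coeff k).a = 0 ∧ ((u * s).coeff k).d = 0) →
      u * s = 0 ∧ v * s = 0 := by
    intro s hs
    obtain ⟨α, β, hαβ⟩ := key s
    have hα : ∀ k, α k = 0 := fun k => by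
      have := (hs k).1
      rw [(hαβ k).1] at this
      exact this
    have hβ : ∀ k, β k = 0 := fun k => by
      have := (hs k).2
      rw [(hαβ k).1] at this
      exact this
    constructor
    · apply SkewLaurent.ext
      funext k
      rw [(hαβ k).1, hα, hβ]
      rfl
    · apply SkewLaurent.ext
      funext k
      rw [show k = (k - 1) + 1 by ring, (hαβ (k - 1)).2, hα, hβ]
      rfl
  have hva : ∀ (s : R) k, ((v * s).coeff k).a = 0 ∧ ((v * s).coeff k).d = 0 := by
    intro s k
    obtain ⟨α, β, hαβ⟩ := key s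
    rw [show k = (k - 1) + 1 by ring, (hαβ (k - 1)).2]
    exact ⟨rfl, rfl⟩
  have hub : ∀ (s : R) k, ((u * s).coeff k).b = 0 ∧ ((u * s).coeff k).c = 0 := by
    intro s k
    obtain ⟨α, β, hαβ⟩ := key s
    rw [(hαβ k).1]
    exact ⟨rfl, rfl⟩
  have hvb : ∀ (s : R) k, ((v * s).coeff (k + 1)).b = ((u * s).coeff k).a ∧
      ((v * s).coeff (k + 1)).c = ((u * s).coeff k).d := by
    intro s k
    obtain ⟨α, β, hαβ⟩ := key s
    rw [(hαβ k).1, (hαβ k).2]
    exact ⟨rfl, rfl⟩
  -- the three submodules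
  have h1 := hdist (Submodule.span Rᵐᵒᵖ {⟨u + v, add_mem huN hvN⟩})
    (Submodule.span Rᵐᵒᵖ {⟨u, huN⟩}) (Submodule.span Rᵐᵒᵖ {⟨v, hvN⟩})
  have h2 : (⟨u + v, add_mem huN hvN⟩ : N) ∈ (Submodule.span Rᵐᵒᵖ {⟨u + v, add_mem huN hvN⟩}) ⊓
      ((Submodule.span Rᵐᵒᵖ {(⟨u, huN⟩ : N)}) ⊔ (Submodule.span Rᵐᵒᵖ {(⟨v, hvN⟩ : N)})) := by
    refine ⟨Submodule.mem_span_singleton_self _, ?_⟩
    have : (⟨u + v, add_mem huN hvN⟩ : N) = ⟨u, huN⟩ + ⟨v, hvN⟩ := rfl
    rw [this]
    exact add_mem (Submodule.mem_sup_left (Submodule.mem_span_singleton_self _))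
      (Submodule.mem_sup_right (Submodule.mem_span_singleton_self _))
  rw [h1] at h2
  obtain ⟨x1, ⟨hx1, hx1'⟩, x2, ⟨hx2, hx2'⟩, hx⟩ := Submodule.mem_sup.mp h2
  obtain ⟨s1, rfl⟩ := Submodule.mem_span_singleton.mp hx1
  obtain ⟨t1, ht1⟩ := Submodule.mem_span_singleton.mp hx1'
  obtain ⟨s2, rfl⟩ := Submodule.mem_span_singleton.mp hx2
  obtain ⟨t2, ht2⟩ := Submodule.mem_span_singleton.mp hx2'
  have e1 : u * t1.unop = (u + v) * s1.unop := congrArg Subtype.val ht1
  have e2 : v * t2.unop = (u + v) * s2.unop := congrArg Subtype.val ht2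
  have e3 : (u + v) * s1.unop + (u + v) * s2.unop = u + v := congrArg Subtype.val hx
  rw [add_mul] at e1 e2
  have z1 := hzero s1.unop (by
    intro k
    have g := congrArg (fun w : R => w.coeff (k + 1)) e1
    simp only [coeff_add] at g
    have gb := congrArg A.b g
    have gc := congrArg A.c g
    simp only [A.add_b, A.add_c] at gb gc
    rw [(hub _ _).1, (hub _ _).1, (hvb _ _).1, zero_add] at gb
    rw [(hub _ _).2, (hub _ _).2, (hvb _ _).2, zero_add] at gc
    exact ⟨gb.symm, gc.symm⟩)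
  have z2 := hzero s2.unop (by
    intro k
    have g := congrArg (fun w : R => w.coeff k) e2
    simp only [coeff_add] at g
    have ga := congrArg A.a g
    have gd := congrArg A.d g
    simp only [A.add_a, A.add_d] at ga gd
    rw [(hva _ _).1, (hva _ _).1, add_zero] at ga
    rw [(hva _ _).2, (hva _ _).2, add_zero] at gd
    exact ⟨ga.symm, gd.symm⟩)
  rw [add_mul, add_mul, z1.1, z1.2, z2.1, z2.2, add_zero, add_zero] at e3
  have z3 := hzero 1 (by
    intro k
    rw [mul_one]
    have g := congrArg (fun w : R => w.coeff k) e3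
    simp only [coeff_add] at g
    have ga := congrArg A.a g
    have gd := congrArg A.d g
    simp only [A.add_a, A.add_d] at ga gd
    have g1 := hva 1 k
    rw [mul_one] at g1
    rw [g1.1, add_zero] at ga
    rw [g1.2, add_zero] at gd
    exact ⟨ga.symm, gd.symm⟩)
  apply hra
  rw [← hu, ← mul_one u]
  exact z3.1

/-- `A((x, φ))` is not right semidistributive. -/
theorem not_semidistributive_R : ¬ RightSemidistributive R := by
  rintro ⟨ι, N, _, hN, hd⟩
  let T : Submodule Rᵐᵒᵖ R :=
    { carrier := {r | ∀ s : R, r * s * monomial φ 0 (⟨0, 0, 1, 0, 0, 0⟩ : A) = 0}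
      add_mem' := by
        intro x y hx hy s
        rw [add_mul, add_mul, hx s, hy s, add_zero]
      zero_mem' := by
        intro s
        rw [zero_mul, zero_mul]
      smul_mem' := by
        intro r x hx s
        change x * r.unop * s * _ = 0
        rw [mul_assoc x]
        exact hx _ }
  have hT : ∀ i, N i ≤ T := by
    intro i r hr s
    by_contra h
    exact not_dist (N i) (r * s) (mul_mem (N i) hr s) h (hd i)
  have h1 : (1 : R) ∈ T := by
    have : (⊤ : Submodule Rᵐᵒᵖ R) ≤ T := by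
      rw [← hN]
      exact iSup_le hT
    exact this Submodule.mem_top
  have h2 := h1 1
  rw [one_mul, one_mul] at h2
  have h3 := congrArg (fun w : R => (w.coeff 0).a) h2
  revert h3
  change ((1 : ZMod 2) = 0) → False
  decide

/-- There are a right semidistributive right Artinian ring `A` and an automorphism `φ` of `A`
such that the skew Laurent series ring `A((x, φ))` is not right semidistributive. -/
theorem result : ∃ (A : Type) (_ : Ring A) (φ : RingAut A),
    RightSemidistributive A ∧ IsArtinian Aᵐᵒᵖ A ∧ ¬ RightSemidistributive (SkewLaurent φ) :=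
  ⟨A, inferInstance, φ, semidistributive_A, inferInstance, not_semidistributive_R⟩

end Pool.Agent.Results.MP_d4f5ca_al.Semidistributive
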